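import Pool.Agent.Helper62.ThinDisc

/-!
# MP_7ef336_gt: enlarging a subset of `ℝ³` to a set with complementary dimension

A subset `A` of `ℝ³` of type `G_δ` and of covering dimension `1` such that every set `B ⊇ A` of covering dimension at
most `1` has a complement which contains a round closed disc, so the complement has dimension at least `2`, which is
more than `3 - 1 - 1`.
-/

set_option autoImplicit false

open Set

namespace Pool.Agent.Results.MP_7ef336_gt.GdeltaCounterexample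

/-- The covering dimension of the space `X` is at most `k`: every finite cover of `X` by open sets has a refinement
which is a finite cover by open sets and such that every point is in at most `k + 1` of its members. -/
def CovDimLE (X : Type*) [TopologicalSpace X] (k : ℤ) : Prop :=
  ∀ 𝒰 : Set (Set X), 𝒰.Finite → (∀ U ∈ 𝒰, IsOpen U) → ⋃₀ 𝒰 = univ →
    ∃ 𝒱 : Set (Set X), 𝒱.Finite ∧ (∀ V ∈ 𝒱, IsOpen V) ∧ ⋃₀ 𝒱 = univ ∧ (∀ V ∈ 𝒱, ∃ U ∈ 𝒰, V ⊆ U) ∧
      ∀ x : X, ({V ∈ 𝒱 | x ∈ V}.ncard : ℤ) ≤ k + 1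

/-- The covering dimension of the space `X` is the integer `k` (so `k = -1` if and only if `X` is empty). -/
def CovDim (X : Type*) [TopologicalSpace X] (k : ℤ) : Prop :=
  -1 ≤ k ∧ CovDimLE X k ∧ ∀ j : ℤ, -1 ≤ j → j < k → ¬ CovDimLE X j

theorem covDimLE_iff {X : Type*} [TopologicalSpace X] (S : Set X) {k : ℤ} (hk : -2 ≤ k) :
    CovDimLE S k ↔ Helper88.DimLE S k := by
  classical
  have hex : ∀ V : Set S, ∃ V' : Set X, IsOpen V → (IsOpen V' ∧ (Subtype.val : S → X) ⁻¹' V' = V) := by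
    intro V
    by_cases hVo : IsOpen V
    · obtain ⟨V', hV', hVV'⟩ := isOpen_induced_iff.1 hVo
      exact ⟨V', fun _ => ⟨hV', hVV'⟩⟩
    · exact ⟨∅, fun h' => absurd h' hVo⟩
  choose g hg using hex
  constructor
  · intro h 𝒰 hU hcov
    obtain ⟨𝒱, hfin, hV, hVcov, hVref, hVord⟩ := h ((fun U => (Subtype.val : S → X) ⁻¹' U) '' (𝒰 : Set (Set X)))
      (𝒰.finite_toSet.image _)
      (by
        rintro _ ⟨U, hU0, rfl⟩
        exact (hU U hU0).preimage continuous_subtype_val)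
      (by
        rw [eq_univ_iff_forall]
        intro x
        obtain ⟨U, hU0, hxU⟩ := hcov x.2
        exact ⟨_, ⟨U, hU0, rfl⟩, hxU⟩)
    have hmem : ∀ V, V ∈ hfin.toFinset.image g ↔ ∃ W ∈ 𝒱, g W = V := by
      intro V
      rw [Finset.mem_image]
      simp only [Finite.mem_toFinset]
    refine ⟨hfin.toFinset.image g, ?_, ?_, ?_, ?_⟩
    · intro V' hV'
      obtain ⟨V, hV0, rfl⟩ := (hmem _).1 hV'
      exact (hg V (hV V hV0)).1
    · intro x hx
      have h1 : (⟨x, hx⟩ : S) ∈ ⋃₀ 𝒱 := by rw [hVcov]; exact mem_univ _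
      obtain ⟨V, hV0, hxV⟩ := h1
      refine ⟨g V, ?_, ?_⟩
      · rw [Finset.mem_coe]
        exact (hmem _).2 ⟨V, hV0, rfl⟩
      · rw [← (hg V (hV V hV0)).2] at hxV
        exact hxV
    · intro V' hV'
      obtain ⟨V, hV0, rfl⟩ := (hmem _).1 hV'
      obtain ⟨_, ⟨U, hU0, rfl⟩, hVU⟩ := hVref V hV0
      refine ⟨U, hU0, ?_⟩
      rintro x ⟨hxV, hxS⟩
      have h1 : (⟨x, hxS⟩ : S) ∈ V := by
        rw [← (hg V (hV V hV0)).2]
        exact hxV
      exact hVU h1
    · intro 𝒲 hW hcard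
      rw [eq_empty_iff_forall_notMem]
      rintro x ⟨hxS, hx⟩
      have h1 := hVord ⟨x, hxS⟩
      have h2 : (𝒲 : Set (Set X)).ncard ≤ {V ∈ 𝒱 | (⟨x, hxS⟩ : S) ∈ V}.ncard := by
        refine ncard_le_ncard_of_injOn (fun V => (Subtype.val : S → X) ⁻¹' V) ?_ ?_ (hfin.subset (sep_subset _ _))
        · intro V hV0
          obtain ⟨V1, hV1, rfl⟩ := (hmem _).1 (hW hV0)
          refine ⟨?_, ?_⟩
          · rw [(hg V1 (hV V1 hV1)).2]
            exact hV1
          · exact hx _ hV0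
        · intro V hV0 V' hV0' he
          obtain ⟨V1, hV1, rfl⟩ := (hmem _).1 (hW hV0)
          obtain ⟨V2, hV2, rfl⟩ := (hmem _).1 (hW hV0')
          have he' : (Subtype.val : S → X) ⁻¹' (g V1) = (Subtype.val : S → X) ⁻¹' (g V2) := he
          rw [(hg V1 (hV V1 hV1)).2, (hg V2 (hV V2 hV2)).2] at he'
          rw [he']
      rw [ncard_coe_finset] at h2
      omega
  · intro h 𝒰 hfin hU hcov
    have hmem : ∀ V, V ∈ hfin.toFinset.image g ↔ ∃ W ∈ 𝒰, g W = V := by
      intro V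
      rw [Finset.mem_image]
      simp only [Finite.mem_toFinset]
    obtain ⟨𝒱, hV, hVcov, hVref, hVord⟩ := h (hfin.toFinset.image g)
      (by
        intro U' hU'
        obtain ⟨U, hU0, rfl⟩ := (hmem _).1 hU'
        exact (hg U (hU U hU0)).1)
      (by
        intro x hx
        have h1 : (⟨x, hx⟩ : S) ∈ ⋃₀ 𝒰 := by rw [hcov]; exact mem_univ _
        obtain ⟨U, hU0, hxU⟩ := h1
        refine ⟨g U, ?_, ?_⟩
        · rw [Finset.mem_coe]
          exact (hmem _).2 ⟨U, hU0, rfl⟩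
        · rw [← (hg U (hU U hU0)).2] at hxU
          exact hxU)
    refine ⟨(fun V => (Subtype.val : S → X) ⁻¹' V) '' (𝒱 : Set (Set X)), 𝒱.finite_toSet.image _, ?_, ?_, ?_, ?_⟩
    · rintro _ ⟨V, hV0, rfl⟩
      exact (hV V hV0).preimage continuous_subtype_val
    · rw [eq_univ_iff_forall]
      intro x
      obtain ⟨V, hV0, hxV⟩ := hVcov x.2
      exact ⟨_, ⟨V, hV0, rfl⟩, hxV⟩
    · rintro _ ⟨V, hV0, rfl⟩
      obtain ⟨U', hU', hVU⟩ := hVref V hV0
      obtain ⟨U, hU0, rfl⟩ := (hmem _).1 hU'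
      refine ⟨U, hU0, ?_⟩
      intro x hx
      have h1 : (x : X) ∈ g U := hVU ⟨hx, x.2⟩
      rw [← (hg U (hU U hU0)).2]
      exact h1
    · intro x
      have h1 : {V ∈ (fun V => (Subtype.val : S → X) ⁻¹' V) '' (𝒱 : Set (Set X)) | x ∈ V} ⊆
          (fun V => (Subtype.val : S → X) ⁻¹' V) '' ((𝒱.filter fun V => (x : X) ∈ V : Finset (Set X)) : Set (Set X)) := by
        rintro _ ⟨⟨V, hV0, rfl⟩, hxV⟩
        refine ⟨V, ?_, rfl⟩
        rw [Finset.mem_coe, Finset.mem_filter]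
        exact ⟨hV0, hxV⟩
      have h2 := (ncard_le_ncard h1 ((Finset.finite_toSet _).image _)).trans (ncard_image_le (Finset.finite_toSet _))
      rw [ncard_coe_finset] at h2
      have h3 : ((𝒱.filter fun V => (x : X) ∈ V).card : ℤ) ≤ k + 1 := by
        by_contra hcon
        obtain ⟨𝒲, hW, hcard⟩ := Finset.exists_subset_card_eq (s := 𝒱.filter fun V => (x : X) ∈ V)
          (n := (k + 2).toNat) (by omega)
        have h4 := hVord 𝒲 (hW.trans (Finset.filter_subset _ _)) (by omega)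
        rw [eq_empty_iff_forall_notMem] at h4
        refine h4 x ⟨x.2, ?_⟩
        intro V hV0
        exact (Finset.mem_filter.1 (hW hV0)).2
      exact (Nat.cast_le.2 h2).trans h3

theorem result :
    ∃ A : Set (EuclideanSpace ℝ (Fin 3)), IsGδ A ∧ CovDim A 1 ∧
      ∀ B : Set (EuclideanSpace ℝ (Fin 3)), A ⊆ B → CovDimLE B 1 →
        (∃ c a b r : ℝ, 0 < r ∧ ∀ x : EuclideanSpace ℝ (Fin 3),
          x 0 = c → (x 1 - a) ^ 2 + (x 2 - b) ^ 2 ≤ r ^ 2 → x ∉ B) ∧
        ¬ CovDimLE (Bᶜ : Set (EuclideanSpace ℝ (Fin 3))) 1 := by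
  refine ⟨Helper88.AA, Helper88.AA_isGδ, ⟨by norm_num, ?_, ?_⟩, ?_⟩
  · exact (covDimLE_iff _ (by norm_num)).2 Helper88.AA_dimLE_one
  · intro j hj1 hj2 h
    have h1 := (covDimLE_iff _ (by omega)).1 h
    have hj : j = -1 ∨ j = 0 := by omega
    rcases hj with rfl | rfl
    · exact Helper88.AA_not_dimLE_neg_one h1
    · exact Helper88.AA_not_dimLE_zero h1
  · intro B hAB hB
    have hB1 := (covDimLE_iff B (by norm_num)).1 hB
    obtain ⟨q, z1, r, hr, h⟩ := Helper88.key_disc B hAB hB1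
    refine ⟨⟨q, z1.re, z1.im, r, hr, ?_⟩, ?_⟩
    · intro x hx0 hx
      have h1 : Helper88.jj (q, Helper88.zz x) = x := by
        have h2 : Helper88.cc x = q := hx0
        rw [← h2, Helper88.jj_cc_zz]
      rw [← h1]
      refine h _ ?_
      rw [Metric.mem_closedBall, dist_eq_norm]
      refine abs_le_of_sq_le_sq' ?_ hr.le |>.2
      rw [← Complex.normSq_eq_norm_sq, Complex.normSq_apply]
      have h3 : (Helper88.zz x - z1).re = x 1 - z1.re := by simp [Helper88.zz]
      have h4 : (Helper88.zz x - z1).im = x 2 - z1.im := by simp [Helper88.zz]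
      rw [h3, h4]
      nlinarith [hx]
    · intro h2
      exact Helper88.not_dimLE_one_of_disc Bᶜ q z1 r hr (fun z hz => h z hz)
        ((covDimLE_iff _ (by norm_num)).1 h2)

end Pool.Agent.Results.MP_7ef336_gt.GdeltaCounterexample
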